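import Pool.Agent.J4H91.Drw.Main

/-!
# The least number of triangular faces in a convex drawing of `K_n` is quadratic in `n`

For every `n ≥ 4` the convex drawing of `K_n` with vertices `(2 ^ 2 ^ i, (2 ^ 2 ^ i) ^ 2)`, `i < n`,
is generic and has at most `n (n - 3) + (n - 4).choose 2 = (3 n ^ 2 - 15 n + 20) / 2` faces that are
triangles.  Together with the lower bound `n (n - 3)` listed in the problem this shows that both
`t n` and `tgen n` are of order `n ^ 2`.
-/

set_option autoImplicit false

namespace Pool.Agent.Results.MP_c17047_co.QuadraticTriangles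

open Pool.Agent.J4H91.Drw

theorem result : ∀ n : ℕ, 4 ≤ n →
    (∃ P : Fin n → ℝ × ℝ, ConvexIndependent ℝ P ∧ Generic P ∧
      (threeFaces P).encard ≤ ((n * (n - 3) + (n - 4).choose 2 : ℕ) : ℕ∞)) ∧
    t n ≤ tgen n ∧ tgen n ≤ ((n * (n - 3) + (n - 4).choose 2 : ℕ) : ℕ∞) ∧
    2 * (n * (n - 3) + (n - 4).choose 2) + 15 * n = 3 * n ^ 2 + 20 := by
  intro n hn
  have hex : ConvexIndependent ℝ (fun i : Fin n => Q s0 i) ∧
      Generic (fun i : Fin n => Q s0 i) :=
    ⟨convex_par s0_mono n, generic_par s0_fast n⟩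
  have hcount := count s0_fast hn
  refine ⟨⟨_, hex.1, hex.2, hcount⟩, ?_, ?_, ?_⟩
  · unfold t tgen
    refine le_iInf fun P => le_iInf fun hP => ?_
    exact iInf_le_of_le P (iInf_le_of_le hP.1 le_rfl)
  · unfold tgen
    exact iInf_le_of_le _ (iInf_le_of_le hex hcount)
  · obtain ⟨m, rfl⟩ : ∃ m, n = m + 4 := ⟨n - 4, by omega⟩
    have h1 : m + 4 - 3 = m + 1 := by omega
    have h2 : m + 4 - 4 = m := by omega
    rw [h1, h2]
    have h3 : 2 * m.choose 2 + m = m ^ 2 := by
      rw [Nat.choose_two_right]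
      have : 2 ∣ m * (m - 1) := (Nat.even_mul_pred_self m).two_dvd
      have h4 := Nat.mul_div_cancel' this
      rw [h4]
      cases m with
      | zero => rfl
      | succ k => simp; ring
    nlinarith

end Pool.Agent.Results.MP_c17047_co.QuadraticTriangles
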